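import Pool.Agent.Helper77.RL.Goals3
import Pool.Agent.Helper14.RD.TOW

/-!
# Project RL (MP_fc6b1e_nt), part III: the degrees in the tower (X_TWN)
-/

namespace Pool.Agent.Helper35.RL

open NumberField Polynomial Module IsDedekindDomain TensorProduct Pool.Agent.Helper51.SigLeo
open Pool.Agent.Helper51.RP
open Pool.Agent.Helper14.RD (res res_comm res_inj finrank_dvd)

theorem x_twn : Pool.Agent.Helper77.RL.X_TWN := by
  intro p hp n K M E M₁ _ _ _ _ _ _ _ _ _ _ _ _ _ _ _ _ _ _ ξ hT
  have hG2 : IsGalois E M₁ := IsGalois.tower_top_of_isGalois K E M₁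
  have hd2 : finrank E M₁ ∣ finrank K M :=
    finrank_dvd K E M M₁ (fun g h1 h2 => hT.lin g h2 h1)
  have hc2 : (finrank E M₁).Coprime p := Nat.Coprime.coprime_dvd_left hd2 hT.cop
  refine ⟨hG2, ?_, ?_⟩
  · intro h2
    have h3 := hT.nt
    by_contra h4
    have h5 : finrank E M₁ = 2 := by omega
    rw [h5, h2] at hc2
    norm_num at hc2
  · intro W w hWw hF g hg
    have : W.asIdeal.LiesOver w.asIdeal := ⟨hWw.symm⟩
    have hg' : res K E M M₁ g = 1 := by
      apply hF
      intro y
      have h1 := HeightOneSpectrum.valuation_liesOver (K := M) M₁ w W (res K E M M₁ g y)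
      have h2 := HeightOneSpectrum.valuation_liesOver (K := M) M₁ w W y
      rw [res_comm, hg, ← h2] at h1
      have hne : w.asIdeal.ramificationIdx' W.asIdeal ≠ 0 :=
        Ideal.IsDedekindDomain.ramificationIdx'_ne_zero_of_liesOver W.asIdeal w.ne_bot
      exact (pow_left_inj₀ zero_le zero_le hne).mp h1
    have h1 : res K E M M₁ g = res K E M M₁ 1 := by rw [hg', map_one]
    exact res_inj K E M M₁ (fun g h1 h2 => hT.lin g h2 h1) h1

end Pool.Agent.Helper35.RL
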