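import Pool.Agent.Helper18.RL.Goals

/-!
# Packet RL-CLP (MP_0c2bb8_co)
-/

set_option autoImplicit false

namespace Pool.Agent.Helper35.RL

open Finset Pool.Agent.Helper37.RG3 Pool.Agent.Helper18.RL

theorem nb_eq {V : Type} [Fintype V] [DecidableEq V] {U K K₁ : Finset V} {w : V → V → ℕ} {r : ℕ}
    {a b c : V} (hw : RG U w r) (h3 : C3 U w) (hK : K ⊆ U) (hnb : nb (Adj w) K = {a, b, c})
    (hne : K ∪ {a, b, c} ≠ U) (h1 : K₁ ⊆ K) (h1n : K₁.Nonempty)
    (hno : ∀ x ∈ K₁, ∀ y ∈ K, Adj w x y → y ∈ K₁) : nb (Adj w) K₁ = {a, b, c} := by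
  have hsub : nb (Adj w) K₁ ⊆ {a, b, c} := by
    intro v hv
    rw [mem_nb] at hv
    obtain ⟨hv1, s, hs, hsv⟩ := hv
    rw [← hnb, mem_nb]
    refine ⟨fun hvK => hv1 (hno s hs v hvK hsv), s, h1 hs, hsv⟩
  have hcard : 3 ≤ (nb (Adj w) K₁).card := by
    refine h3 K₁ (h1.trans hK) h1n fun he => hne ?_
    refine Subset.antisymm (union_subset hK ?_) ?_
    · rw [← hnb]
      exact nb_sub hw K
    · rw [← he]
      exact union_subset_union h1 hsub
  exact eq_of_subset_of_card_le hsub (card_le_three.trans hcard)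

theorem gclp : G_CLP := by
  intro V _ _ U K L Z w r a b c hw h3 hK hnb hne hLZ hKZ hL
  constructor
  · intro hn v hv
    have e := nb_eq (K₁ := K ∩ L) hw h3 hK hnb hne inter_subset_left hn (by
      intro x hx y hy hxy
      rw [mem_inter] at hx ⊢
      refine ⟨hy, ?_⟩
      rcases mem_union.1 (hL x hx.2 y hxy) with h | h
      · exact h
      · exact absurd h (disjoint_left.1 hKZ hy))
    rw [← e, mem_nb] at hv
    obtain ⟨-, s, hs, hsv⟩ := hv
    exact hL s (mem_inter.1 hs).2 v hsv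
  · intro hn v hv hvL
    have e := nb_eq (K₁ := K \ L) hw h3 hK hnb hne sdiff_subset hn (by
      intro x hx y hy hxy
      rw [mem_sdiff] at hx ⊢
      refine ⟨hy, fun hyL => ?_⟩
      have hyx : Adj w y x := by
        unfold Adj at hxy ⊢
        rwa [hw.symm]
      rcases mem_union.1 (hL y hyL x hyx) with h | h
      · exact hx.2 h
      · exact disjoint_left.1 hKZ hx.1 h)
    rw [← e, mem_nb] at hv
    obtain ⟨-, s, hs, hsv⟩ := hv
    have hvs : Adj w v s := by
      unfold Adj at hsv ⊢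
      rwa [hw.symm]
    rw [mem_sdiff] at hs
    rcases mem_union.1 (hL v hvL s hvs) with h | h
    · exact hs.2 h
    · exact disjoint_left.1 hKZ hs.1 h

end Pool.Agent.Helper35.RL
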